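import Pool.Agent.H4.FV.Stm2
import Pool.Graph.R_pool_sql_team_seeded_63374d34.N649.SV.G

set_option autoImplicit false
set_option linter.unusedVariables false

/-! FV-RECT: from groups to rectangular groups. -/

namespace Pool.Agent.H947.FV

open FirstOrder FirstOrder.Language
open Pool.Agent.W889.FO
open Pool.Agent.W889.FO.StA (FD.all1 FD.ex1)
open Pool.Agent.TH686.FO
open Pool.Agent.H4.VG
open Pool.Agent.H4.FV
open Pool.Agent.N649.SV
open Pool.Agent.N649.SV.GG
open Pool.Agent.N649.SG.Light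

/-- the structure of a rectangular group -/
@[reducible] noncomputable def st (a c : ℕ) (M : LM.Structure ℕ) : LM.Structure ℕ :=
  mkM (iota a c (op M))

theorem st_mul (a c : ℕ) (g : Bin) (l l' : Ty a) (m m' : ℕ) (r r' : Ty c) :
    iota a c g (bb a c (l, m, r)) (bb a c (l', m', r')) = bb a c (l, g m m', r') := by
  unfold iota
  rw [Equiv.symm_apply_apply, Equiv.symm_apply_apply]

/-! ### terms -/

theorem term_eq (a c n : ℕ) (lam : Fin n → Ty a) (rho : Fin n → Ty c)
    (t : LM.Term (Empty ⊕ Fin n)) :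
    ∃ (l : Ty a) (s : LM.Term (Fin n)) (r : Ty c), ∀ (M : LM.Structure ℕ) (v : Fin n → ℕ),
      @Term.realize LM ℕ (st a c M) (Empty ⊕ Fin n)
        (Sum.elim default (fun i => bb a c (lam i, v i, rho i))) t =
        bb a c (l, @Term.realize LM ℕ M (Fin n) v s, r) := by
  induction t with
  | var i =>
    cases i with
    | inl i => exact i.elim
    | inr i => exact ⟨lam i, Term.var i, rho i, fun M v => rfl⟩
  | func f ts ih =>
    cases f with
    | mul =>
      obtain ⟨l0, s0, r0, h0⟩ := ih 0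
      obtain ⟨l1, s1, r1, h1⟩ := ih 1
      refine ⟨l0, Term.func (L := LM) (MF.mul : LM.Functions 2) ![s0, s1], r1, fun M v => ?_⟩
      have e1 : @Term.realize LM ℕ M (Fin n) v
          (Term.func (L := LM) (MF.mul : LM.Functions 2) ![s0, s1]) =
          op M (@Term.realize LM ℕ M (Fin n) v s0) (@Term.realize LM ℕ M (Fin n) v s1) := by
        show @Structure.funMap LM ℕ M 2 MF.mul
          (fun i => @Term.realize LM ℕ M (Fin n) v ((![s0, s1] : Fin 2 → LM.Term (Fin n)) i)) =
          @Structure.funMap LM ℕ M 2 MF.mul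
            ![@Term.realize LM ℕ M (Fin n) v s0, @Term.realize LM ℕ M (Fin n) v s1]
        congr 1
        funext i
        refine Fin.cases ?_ (fun j => ?_) i
        · rfl
        · refine Fin.cases ?_ (fun k => k.elim0) j
          rfl
      rw [e1]
      show iota a c (op M) (@Term.realize LM ℕ (st a c M) (Empty ⊕ Fin n)
          (Sum.elim default (fun i => bb a c (lam i, v i, rho i))) (ts 0))
        (@Term.realize LM ℕ (st a c M) (Empty ⊕ Fin n)
          (Sum.elim default (fun i => bb a c (lam i, v i, rho i))) (ts 1)) = _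
      rw [h0, h1, st_mul]

/-! ### isomorphisms -/

theorem eqv (M M' : LM.Structure ℕ) (σ : Equiv.Perm ℕ)
    (h : ∀ m n, op M' (σ m) (σ n) = σ (op M m n)) :
    ∃ e : @FirstOrder.Language.Equiv LM ℕ ℕ M M', ∀ x, e x = σ x := by
  refine ⟨@FirstOrder.Language.Equiv.mk LM ℕ ℕ M M' σ ?_ ?_, fun x => rfl⟩
  · intro n F v
    cases F with
    | mul =>
      have e1 : v = ![v 0, v 1] := by
        funext i
        refine Fin.cases ?_ (fun j => ?_) i
        · rfl
        · refine Fin.cases ?_ (fun k => k.elim0) j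
          rfl
      have e2 : (fun i => σ (v i)) = ![σ (v 0), σ (v 1)] := by
        funext i
        refine Fin.cases ?_ (fun j => ?_) i
        · rfl
        · refine Fin.cases ?_ (fun k => k.elim0) j
          rfl
      have h1 := h (v 0) (v 1)
      unfold op at h1
      rw [← e1, ← e2] at h1
      exact h1.symm
  · intro n R v
    exact R.elim

theorem oiso_of (M M' : LM.Structure ℕ)
    (h : Nonempty (@FirstOrder.Language.Equiv LM ℕ ℕ M M')) : OIso (op M) (op M') := by
  obtain ⟨e⟩ := h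
  refine ⟨@FirstOrder.Language.Equiv.toEquiv LM ℕ ℕ M M' e, fun m n => ?_⟩
  have h1 := @FirstOrder.Language.Equiv.map_fun LM ℕ ℕ M M' e 2 MF.mul ![m, n]
  have e2 : (fun i => e ((![m, n] : Fin 2 → ℕ) i)) = ![e m, e n] := by
    funext i
    refine Fin.cases ?_ (fun j => ?_) i
    · rfl
    · refine Fin.cases ?_ (fun k => k.elim0) j
      rfl
  have h2 : e (@Structure.funMap LM ℕ M 2 MF.mul ![m, n]) =
      @Structure.funMap LM ℕ M' 2 MF.mul (fun i => e ((![m, n] : Fin 2 → ℕ) i)) := h1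
  rw [e2] at h2
  exact h2.symm

/-- the automorphism given by permutations of the two bands -/
noncomputable def mp (a c : ℕ) (σ : Equiv.Perm (Ty a)) (τ : Equiv.Perm (Ty c)) : Equiv.Perm ℕ :=
  (bb a c).symm.trans ((σ.prodCongr ((Equiv.refl ℕ).prodCongr τ)).trans (bb a c))

theorem mp_bb (a c : ℕ) (σ : Equiv.Perm (Ty a)) (τ : Equiv.Perm (Ty c)) (l : Ty a) (m : ℕ)
    (r : Ty c) : mp a c σ τ (bb a c (l, m, r)) = bb a c (σ l, m, τ r) := by
  unfold mp
  rw [Equiv.trans_apply, Equiv.symm_apply_apply]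
  rfl

theorem aut (a c : ℕ) (M : LM.Structure ℕ) (σ : Equiv.Perm (Ty a)) (τ : Equiv.Perm (Ty c))
    {n : ℕ} (φ : LM.BoundedFormula Empty n) (w : Fin n → ℕ) :
    @BoundedFormula.Realize LM ℕ (st a c M) Empty n φ default (fun i => mp a c σ τ (w i)) ↔
      @BoundedFormula.Realize LM ℕ (st a c M) Empty n φ default w := by
  obtain ⟨e, he⟩ := eqv (st a c M) (st a c M) (mp a c σ τ) (fun m n => by
    obtain ⟨⟨l, g, r⟩, rfl⟩ := (bb a c).surjective m
    obtain ⟨⟨l', g', r'⟩, rfl⟩ := (bb a c).surjective n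
    show iota a c (op M) (mp a c σ τ (bb a c (l, g, r))) (mp a c σ τ (bb a c (l', g', r'))) =
      mp a c σ τ (iota a c (op M) (bb a c (l, g, r)) (bb a c (l', g', r')))
    rw [mp_bb, mp_bb, st_mul, st_mul, mp_bb])
  have h1 := @StrongHomClass.realize_boundedFormula LM ℕ ℕ (st a c M) (st a c M) Empty n _ _ _ e φ
    default w
  have e1 : (e ∘ w) = fun i => mp a c σ τ (w i) := by
    funext i
    exact he (w i)
  have e2 : (e ∘ (default : Empty → ℕ)) = default := by
    funext i
    exact i.elim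
  rw [e1, e2] at h1
  exact h1

/-! ### Feferman and Vaught -/

theorem reps {X : Type} [Nonempty X] {n : ℕ} (lam : Fin n → X) : ∃ rep : Option (Fin n) → X,
    ∀ x, ∃ (o : Option (Fin n)) (σ : Equiv.Perm X), (∀ i, σ (lam i) = lam i) ∧ σ x = rep o := by
  classical
  by_cases h : ∃ y, ∀ i, lam i ≠ y
  · obtain ⟨y, hy⟩ := h
    refine ⟨fun o => o.elim y lam, fun x => ?_⟩
    by_cases hx : ∃ i, lam i = x
    · obtain ⟨i, hi⟩ := hx
      exact ⟨some i, Equiv.refl X, fun i => rfl, hi.symm⟩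
    · refine ⟨none, Equiv.swap x y, fun i => ?_, Equiv.swap_apply_left x y⟩
      exact Equiv.swap_apply_of_ne_of_ne (fun h => hx ⟨i, h⟩) (hy i)
  · refine ⟨fun o => o.elim (Classical.arbitrary X) lam, fun x => ?_⟩
    have hx : ∃ i, lam i = x := by
      by_contra hx
      exact h ⟨x, fun i hi => hx ⟨i, hi⟩⟩
    obtain ⟨i, hi⟩ := hx
    exact ⟨some i, Equiv.refl X, fun i => rfl, hi.symm⟩

theorem fv (a c : ℕ) {n : ℕ} (φ : LM.BoundedFormula Empty n) :
    ∀ (lam : Fin n → Ty a) (rho : Fin n → Ty c),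
      FD (L := LM) (fun _ => True) (fun M (v : Fin n → ℕ) =>
        @BoundedFormula.Realize LM ℕ (st a c M) Empty n φ default
          (fun i => bb a c (lam i, v i, rho i))) := by
  induction φ with
  | falsum =>
    intro lam rho
    exact (FD.const False).congr fun M _ v => Iff.rfl
  | @equal n t₁ t₂ =>
    intro lam rho
    obtain ⟨l1, s1, r1, h1⟩ := term_eq a c n lam rho t₁
    obtain ⟨l2, s2, r2, h2⟩ := term_eq a c n lam rho t₂
    have h3 : FD (L := LM) (fun _ => True) (fun M (v : Fin n → ℕ) =>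
        @Term.realize LM ℕ M (Fin n) v s1 = @Term.realize LM ℕ M (Fin n) v s2) :=
      ⟨Term.equal s1 s2, fun M _ v => Formula.realize_equal⟩
    refine ((FD.const (l1 = l2 ∧ r1 = r2)).and h3).congr fun M _ v => ?_
    show _ ↔ @Term.realize LM ℕ (st a c M) (Empty ⊕ Fin n)
        (Sum.elim default (fun i => bb a c (lam i, v i, rho i))) t₁ =
      @Term.realize LM ℕ (st a c M) (Empty ⊕ Fin n)
        (Sum.elim default (fun i => bb a c (lam i, v i, rho i))) t₂
    rw [h1, h2, (bb a c).apply_eq_iff_eq, Prod.mk.injEq, Prod.mk.injEq]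
    tauto
  | rel R ts => exact R.elim
  | imp f1 f2 ih1 ih2 => exact fun lam rho => (ih1 lam rho).imp (ih2 lam rho)
  | @all n f ih =>
    intro lam rho
    obtain ⟨rep1, hrep1⟩ := reps lam
    obtain ⟨rep2, hrep2⟩ := reps rho
    have key : ∀ (M : LM.Structure ℕ) (v : Fin n → ℕ) (l : Ty a) (x : ℕ) (r : Ty c),
        (Fin.snoc (α := fun _ => ℕ) (fun i => bb a c (lam i, v i, rho i)) (bb a c (l, x, r)) :
          Fin (n + 1) → ℕ) = fun i => bb a c ((Fin.snoc (α := fun _ => Ty a) lam l :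
            Fin (n + 1) → Ty a) i, (Fin.snoc (α := fun _ => ℕ) v x : Fin (n + 1) → ℕ) i,
            (Fin.snoc (α := fun _ => Ty c) rho r : Fin (n + 1) → Ty c) i) := by
      intro M v l x r
      funext i
      refine Fin.lastCases ?_ (fun i => ?_) i
      · rw [Fin.snoc_last, Fin.snoc_last, Fin.snoc_last, Fin.snoc_last]
      · rw [Fin.snoc_castSucc, Fin.snoc_castSucc, Fin.snoc_castSucc, Fin.snoc_castSucc]
    refine (FD.fin (ι := Option (Fin n) × Option (Fin n))
      (P := fun o M v => ∀ x : ℕ, @BoundedFormula.Realize LM ℕ (st a c M) Empty (n + 1) f default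
        (fun i => bb a c ((Fin.snoc (α := fun _ => Ty a) lam (rep1 o.1) :
            Fin (n + 1) → Ty a) i, (Fin.snoc (α := fun _ => ℕ) v x : Fin (n + 1) → ℕ) i,
            (Fin.snoc (α := fun _ => Ty c) rho (rep2 o.2) : Fin (n + 1) → Ty c) i)))
      fun o => FD.all1 ?_).congr fun M _ v => ?_
    · refine ((ih (Fin.snoc (α := fun _ => Ty a) lam (rep1 o.1))
        (Fin.snoc (α := fun _ => Ty c) rho (rep2 o.2))).sub
        (Fin.snoc (α := fun _ => Fin n ⊕ Unit) (fun i => Sum.inl i) (Sum.inr ()))).congr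
        fun M _ w => ?_
      have e : (fun i => w ((Fin.snoc (α := fun _ => Fin n ⊕ Unit) (fun i => Sum.inl i)
          (Sum.inr ()) : Fin (n + 1) → Fin n ⊕ Unit) i)) =
          (Fin.snoc (α := fun _ => ℕ) (fun i => w (Sum.inl i)) (w (Sum.inr ())) :
            Fin (n + 1) → ℕ) := by
        funext i
        refine Fin.lastCases ?_ (fun i => ?_) i
        · rw [Fin.snoc_last, Fin.snoc_last]
        · rw [Fin.snoc_castSucc, Fin.snoc_castSucc]
      have e' : ∀ i, w ((Fin.snoc (α := fun _ => Fin n ⊕ Unit) (fun i => Sum.inl i)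
          (Sum.inr ()) : Fin (n + 1) → Fin n ⊕ Unit) i) =
          (Fin.snoc (α := fun _ => ℕ) (fun i => w (Sum.inl i)) (w (Sum.inr ())) :
            Fin (n + 1) → ℕ) i := fun i => congrFun e i
      simp only [e']
    · have hall : @BoundedFormula.Realize LM ℕ (st a c M) Empty n f.all default
          (fun i => bb a c (lam i, v i, rho i)) ↔ ∀ y : ℕ,
          @BoundedFormula.Realize LM ℕ (st a c M) Empty (n + 1) f default
            (Fin.snoc (α := fun _ => ℕ) (fun i => bb a c (lam i, v i, rho i)) y) :=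
        @BoundedFormula.realize_all LM ℕ (st a c M) Empty n f default _
      rw [hall]
      constructor
      · intro h y
        obtain ⟨⟨l, x, r⟩, rfl⟩ := (bb a c).surjective y
        obtain ⟨o1, σ, hσ1, hσ2⟩ := hrep1 l
        obtain ⟨o2, τ, hτ1, hτ2⟩ := hrep2 r
        have h1 := h (o1, o2) x
        rw [← aut a c M σ τ]
        have e : (fun i => mp a c σ τ ((Fin.snoc (α := fun _ => ℕ)
            (fun i => bb a c (lam i, v i, rho i)) (bb a c (l, x, r)) : Fin (n + 1) → ℕ) i)) =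
            (fun i => bb a c ((Fin.snoc (α := fun _ => Ty a) lam (rep1 o1) :
            Fin (n + 1) → Ty a) i, (Fin.snoc (α := fun _ => ℕ) v x : Fin (n + 1) → ℕ) i,
            (Fin.snoc (α := fun _ => Ty c) rho (rep2 o2) : Fin (n + 1) → Ty c) i)) := by
          funext i
          refine Fin.lastCases ?_ (fun i => ?_) i
          · rw [Fin.snoc_last, Fin.snoc_last, Fin.snoc_last, Fin.snoc_last, mp_bb, hσ2, hτ2]
          · rw [Fin.snoc_castSucc, Fin.snoc_castSucc, Fin.snoc_castSucc, Fin.snoc_castSucc, mp_bb,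
              hσ1, hτ1]
        rw [e]
        exact h1
      · intro h o x
        have h1 := h (bb a c (rep1 o.1, x, rep2 o.2))
        rw [key M v] at h1
        exact h1

theorem fvS (a c : ℕ) (φ : LM.Sentence) :
    Ax (fun M : LM.Structure ℕ => @Sentence.Realize LM ℕ (st a c M) φ) := by
  refine Ax.of ?_
  refine ((fv a c φ Fin.elim0 Fin.elim0).sub (β := Empty) Fin.elim0).congr fun M _ v => ?_
  have e : ∀ (v1 v2 : Empty → ℕ) (w1 w2 : Fin 0 → ℕ),
      @BoundedFormula.Realize LM ℕ (st a c M) Empty 0 φ v1 w1 ↔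
      @BoundedFormula.Realize LM ℕ (st a c M) Empty 0 φ v2 w2 := by
    intro v1 v2 w1 w2
    rw [Subsingleton.elim v1 v2, Subsingleton.elim w1 w2]
  exact e _ _ _ _

/-! ### the axioms for groups -/

/-- definable terms -/
def FTm {α : Type} (p : LM.Structure ℕ → (α → ℕ) → ℕ) : Prop :=
  ∃ t : LM.Term α, ∀ S v, @Term.realize LM ℕ S α v t = p S v

theorem FTm.var {α : Type} (i : α) : FTm (fun _ v => v i) := ⟨Term.var i, fun _ _ => rfl⟩

theorem FTm.mul {α : Type} {p q : LM.Structure ℕ → (α → ℕ) → ℕ} (hp : FTm p) (hq : FTm q) :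
    FTm (fun S v => op S (p S v) (q S v)) := by
  obtain ⟨t, ht⟩ := hp
  obtain ⟨s, hs⟩ := hq
  refine ⟨Term.func (L := LM) (MF.mul : LM.Functions 2) ![t, s], fun S v => ?_⟩
  show @Structure.funMap LM ℕ S 2 MF.mul
    (fun i => @Term.realize LM ℕ S α v ((![t, s] : Fin 2 → LM.Term α) i)) =
      @Structure.funMap LM ℕ S 2 MF.mul ![p S v, q S v]
  congr 1
  funext i
  refine Fin.cases ?_ (fun j => ?_) i
  · exact ht S v
  · refine Fin.cases ?_ (fun k => k.elim0) j
    exact hs S v

theorem eqTm {α : Type} {p q : LM.Structure ℕ → (α → ℕ) → ℕ} (hp : FTm p) (hq : FTm q) :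
    FD (L := LM) (fun _ => True) (fun S v => p S v = q S v) := by
  obtain ⟨t, ht⟩ := hp
  obtain ⟨s, hs⟩ := hq
  refine ⟨Term.equal t s, fun S _ v => ?_⟩
  show _ ↔ p S v = q S v
  rw [← ht, ← hs]
  exact Formula.realize_equal

theorem ax_grp : Ax (fun M : LM.Structure ℕ => Grp (op M)) := by
  refine Ax.of ?_
  refine FD.and (P := fun S _ => ∀ x y z, op S (op S x y) z = op S x (op S y z))
    (Q := fun S _ => ∀ a b, (∃ x, op S a x = b) ∧ ∃ x, op S x a = b) ?_ ?_
  · refine FD.all1 (FD.all1 (FD.all1 ?_))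
    exact eqTm (((FTm.var _).mul (FTm.var _)).mul (FTm.var _))
      ((FTm.var _).mul ((FTm.var _).mul (FTm.var _)))
  · refine FD.all1 (FD.all1 (FD.and (FD.ex1 ?_) (FD.ex1 ?_)))
    · exact eqTm ((FTm.var _).mul (FTm.var _)) (FTm.var _)
    · exact eqTm ((FTm.var _).mul (FTm.var _)) (FTm.var _)

/-! ### the theorem -/

theorem ax_rect (a c : ℕ) (T : LM.Theory) : ∃ T' : LM.Theory, ∀ M : LM.Structure ℕ,
    @Theory.Model LM ℕ M T' ↔ Grp (op M) ∧ @Theory.Model LM ℕ (st a c M) T := by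
  have h : Ax (fun M : LM.Structure ℕ => ∀ φ : T, @Sentence.Realize LM ℕ (st a c M) φ.1) :=
    Ax.all fun φ => fvS a c φ.1
  obtain ⟨T', hT'⟩ := ax_grp.and h
  refine ⟨T', fun M => (hT' M).trans ?_⟩
  refine and_congr Iff.rfl ?_
  rw [ax_iff]
  exact ⟨fun h φ hφ => h ⟨φ, hφ⟩, fun h φ => h φ.1 φ.2⟩

theorem siso_of_oiso {M M' : LM.Structure ℕ} (h : OIso (op M) (op M')) :
    Nonempty (@FirstOrder.Language.Equiv LM ℕ ℕ M M') := by
  obtain ⟨σ, hσ⟩ := h
  obtain ⟨e, -⟩ := eqv M M' σ hσ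
  exact ⟨e⟩

theorem model_iso {M M' : LM.Structure ℕ} (h : OIso (op M) (op M')) {T : LM.Theory}
    (hT : @Theory.Model LM ℕ M T) : @Theory.Model LM ℕ M' T :=
  SIso.model (S := M) (S' := M') (siso_of_oiso h) hT

/-- **S_rect.** -/
theorem leaf_rect : S_rect := by
  intro E hG T hT
  choose T' hT' using fun a c : ℕ => ax_rect a c T
  have hd : ∀ a c, VaughtF LM (T' a c) := by
    intro a c
    refine hG (T' a c) fun M hM => ?_
    obtain ⟨h1, h2⟩ := (hT' a c M).1 hM
    exact ⟨h1, Sa.of_PR (iota_PR a c (op M)) (Classical.arbitrary (Ty a))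
      (Classical.arbitrary (Ty c)) (hT (st a c M) h2).2⟩
  by_cases key : ∃ a c, ∃ f : (ℕ → Bool) → LM.Structure ℕ,
      (∀ x : ℕ → Bool, @Theory.Model LM ℕ (f x) (T' a c)) ∧
      (∀ x y : ℕ → Bool, Nonempty (@FirstOrder.Language.Equiv LM ℕ ℕ (f x) (f y)) → x = y) ∧
      (∀ (n : ℕ) (R : LM.Relations n) (v : Fin n → ℕ),
          IsClopen {x : ℕ → Bool | @FirstOrder.Language.Structure.RelMap LM ℕ (f x) n R v}) ∧
      (∀ (n : ℕ) (F : LM.Functions n) (v : Fin n → ℕ) (b : ℕ),
          IsOpen {x : ℕ → Bool | @FirstOrder.Language.Structure.funMap LM ℕ (f x) n F v = b})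
  · right
    obtain ⟨a, c, f, h1, h2, -, h4⟩ := key
    refine ⟨fun x => st a c (f x), fun x => ((hT' a c (f x)).1 (h1 x)).2, fun x y hxy => ?_, ?_, ?_⟩
    · refine h2 x y (siso_of_oiso ?_)
      have h5 : OIso (iota a c (op (f x))) (iota a c (op (f y))) :=
        oiso_of (st a c (f x)) (st a c (f y)) hxy
      exact PR.inj (Classical.arbitrary (Ty a)) (Classical.arbitrary (Ty c))
        ((hT' a c (f x)).1 (h1 x)).1 ((hT' a c (f y)).1 (h1 y)).1
        (PR.of_iso (iota_PR a c (op (f x))) h5) (iota_PR a c (op (f y)))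
    · intro n R v
      exact R.elim
    · intro n F v b
      cases F with
      | mul =>
        show IsOpen {x : ℕ → Bool | iota a c (op (f x)) (v 0) (v 1) = b}
        have e : {x : ℕ → Bool | iota a c (op (f x)) (v 0) (v 1) = b} =
            ⋃ k : {k : ℕ // bb a c (((bb a c).symm (v 0)).1, k, ((bb a c).symm (v 1)).2.2) = b},
              {x : ℕ → Bool | op (f x) ((bb a c).symm (v 0)).2.1 ((bb a c).symm (v 1)).2.1 =
                k.1} := by
          ext x
          rw [Set.mem_iUnion]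
          constructor
          · intro h
            exact ⟨⟨_, h⟩, rfl⟩
          · rintro ⟨⟨k, hk⟩, h⟩
            have h5 : op (f x) ((bb a c).symm (v 0)).2.1 ((bb a c).symm (v 1)).2.1 = k := h
            show bb a c (((bb a c).symm (v 0)).1,
              op (f x) ((bb a c).symm (v 0)).2.1 ((bb a c).symm (v 1)).2.1,
              ((bb a c).symm (v 1)).2.2) = b
            rw [h5]
            exact hk
        rw [e]
        exact isOpen_iUnion fun k => h4 2 MF.mul _ k.1
  · left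
    have h0 : ∀ a c, ∃ g : ℕ → LM.Structure ℕ, ∀ M : LM.Structure ℕ,
        @Theory.Model LM ℕ M (T' a c) → ∃ n, Nonempty (@FirstOrder.Language.Equiv LM ℕ ℕ M (g n)) := by
      intro a c
      rcases hd a c with h | ⟨f, h⟩
      · exact h
      · exact absurd ⟨a, c, f, h⟩ key
    choose f hf using h0
    obtain ⟨F, hF⟩ := cnt (ι := (ℕ × ℕ) × (ℕ ⊕ (Σ k : ℕ, Fin k → Fin k → Fin k)))
      (B := {x : Bin | @Theory.Model LM ℕ (mkM x) T})
      (fun i x => Sum.elim (fun n => PR (Ty i.1.1) ℕ (Ty i.1.2) (op (f i.1.1 i.1.2 n)) x)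
        (fun q => PR (Ty i.1.1) (Fin q.1) (Ty i.1.2) q.2 x) i.2) (by
      intro x hx
      obtain ⟨L, H, R, h, cL, cH, cR, nL, nH, nR, hg, hP⟩ := struct (x := x) (hT (mkM x) hx).1
      obtain ⟨a, ⟨eL⟩⟩ := exists_Ty L
      obtain ⟨c, ⟨eR⟩⟩ := exists_Ty R
      rcases finite_or_infinite H with hfin | hinf
      · obtain ⟨k, ⟨eH⟩⟩ := Finite.exists_equiv_fin H
        exact ⟨((a, c), Sum.inr ⟨k, fun a b => eH (h (eH.symm a) (eH.symm b))⟩),
          PR.map hP eL eH eR⟩
      · obtain ⟨d⟩ := nonempty_denumerable H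
        have eH : H ≃ ℕ := Denumerable.eqv H
        have h1 := PR.map hP eL eH eR
        have h2 := Grp.map hg eH
        obtain ⟨g, hgg⟩ : ∃ g : Bin, g = fun a b => eH (h (eH.symm a) (eH.symm b)) := ⟨_, rfl⟩
        rw [← hgg] at h1 h2
        have h3 : @Theory.Model LM ℕ (mkM g) (T' a c) := by
          rw [hT']
          refine ⟨h2, ?_⟩
          exact model_iso (M := mkM x) (M' := st a c (mkM g)) (PR.iso h1 (iota_PR a c g)) hx
        obtain ⟨n, hn⟩ := hf a c (mkM g) h3
        have h4 : OIso g (op (f a c n)) := oiso_of (mkM g) (f a c n) hn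
        exact ⟨((a, c), Sum.inl n), PR.grp_iso h4 h1⟩) (by
      rintro ⟨⟨a, c⟩, n | ⟨k, h⟩⟩ x hx y hy h1 h2
      · exact PR.iso h1 h2
      · exact PR.iso h1 h2)
    refine ⟨fun n => mkM (F n), fun S hS => ?_⟩
    have hS' : @Theory.Model LM ℕ (mkM (op S)) T :=
      model_iso (M := S) (M' := mkM (op S)) ⟨Equiv.refl ℕ, fun m n => rfl⟩ hS
    obtain ⟨n, hn⟩ := hF (op S) hS'
    exact ⟨n, siso_of_oiso (M := S) (M' := mkM (F n)) (OIso.symm hn)⟩

end Pool.Agent.H947.FV
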