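import Pool.Agent.H960.FV.Bas

/-!
Project FV (helper960): the block map is rarely not constant (helper947).
-/

set_option autoImplicit false

open MeasureTheory Filter Topology

namespace Pool.Agent.H947.FV

open H960FV

theorem evo_add {d : ℕ} {S A : Type} {F F' : Finset (Z d)} (f : (F → S) → (F' → A) → S)
    (W : Z d × ℤ → A) (ξ : Z d → S) (i0 : ℤ) (m n : ℕ) :
    evo f W ξ i0 (m + n) = evo f W (evo f W ξ i0 m) (i0 + m) n := by
  induction n with
  | zero => rfl
  | succ n ih =>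
    funext v
    show f (fun u => evo f W ξ i0 (m + n) (v + u)) (fun u => W (v + u, i0 + ((m + n : ℕ) : ℤ))) =
      f (fun u => evo f W (evo f W ξ i0 m) (i0 + m) n (v + u)) (fun u => W (v + u, i0 + m + n))
    rw [ih]
    have e : i0 + ((m + n : ℕ) : ℤ) = i0 + m + n := by push_cast; ring
    rw [e]

theorem steps_eq {d : ℕ} {S A : Type} {F F' : Finset (Z d)} (f : (F → S) → (F' → A) → S)
    (W : Z d × ℤ → A) (s : Z d → S) (N : ℕ) (i0 : ℤ) : ∀ n ≤ N + 1, ∀ v : Z d,
    steps f (fun k v => W (v, i0 + ((Fin.ofNat (N + 1) k : Fin (N + 1)) : ℕ))) s n v =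
      evo f W s i0 n v := by
  intro n
  induction n with
  | zero => intro _ v; rfl
  | succ n ih =>
    intro hn v
    show f (fun u => steps f (fun k v => W (v, i0 + ((Fin.ofNat (N + 1) k : Fin (N + 1)) : ℕ))) s n
        (v + u)) (fun u => W (v + u, i0 + ((Fin.ofNat (N + 1) n : Fin (N + 1)) : ℕ))) =
      f (fun u => evo f W s i0 n (v + u)) (fun u => W (v + u, i0 + n))
    have e1 : (fun u : F => steps f (fun k v => W (v, i0 + ((Fin.ofNat (N + 1) k : Fin (N + 1)) : ℕ)))
        s n (v + u)) = fun u : F => evo f W s i0 n (v + u) :=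
      funext fun u => ih (by omega) (v + u)
    have e2 : ((Fin.ofNat (N + 1) n : Fin (N + 1)) : ℕ) = n := by
      show n % (N + 1) = n
      exact Nat.mod_eq_of_lt (by omega)
    rw [e1, e2]

theorem exists_bx {d : ℕ} (F : Finset (Z d)) : ∃ r : ℕ, F ⊆ bx d r := by
  refine ⟨F.sup fun x => Finset.univ.sup fun i => (x i).natAbs, fun x hx => ?_⟩
  rw [mem_bx]
  intro i
  have h1 : (x i).natAbs ≤ Finset.univ.sup fun i => (x i).natAbs :=
    Finset.le_sup (f := fun i => (x i).natAbs) (Finset.mem_univ i)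
  have h2 : (Finset.univ.sup fun i => (x i).natAbs) ≤
      F.sup fun x => Finset.univ.sup fun i => (x i).natAbs :=
    Finset.le_sup (f := fun x : Z d => Finset.univ.sup fun i => (x i).natAbs) hx
  have h3 := h1.trans h2
  rw [Int.abs_eq_natAbs]
  exact_mod_cast h3

/-- sets depending on finitely many coordinates are measurable -/
theorem meas_of_loc {I T : Type} [Finite T] [MeasurableSpace T] [MeasurableSingletonClass T]
    (K : Finset I) (E : Set (I → T))
    (h : ∀ a a' : I → T, (∀ x ∈ K, a x = a' x) → a ∈ E → a' ∈ E) : MeasurableSet E := by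
  obtain ⟨R, hR⟩ : ∃ R : (I → T) → (K → T), R = fun a x => a x := ⟨_, rfl⟩
  have hRm : Measurable R := by
    rw [hR]
    exact measurable_pi_lambda _ fun x => measurable_pi_apply _
  have e : E = R ⁻¹' (R '' E) := by
    refine Set.Subset.antisymm (Set.subset_preimage_image R E) ?_
    rintro a ⟨a', ha', he⟩
    refine h a' a (fun x hx => ?_) ha'
    have h1 := congrFun he ⟨x, hx⟩
    rw [hR] at h1
    exact h1
  rw [e]
  exact hRm (Set.toFinite _).measurableSet

theorem pcabad (h1 : S_pcaloc) (h2 : S_blockmap) : S_pcabad := by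
  intro d S A _ _ _ α _ F F' f N
  obtain ⟨r1, hr1⟩ := exists_bx F
  obtain ⟨r2, hr2⟩ := exists_bx F'
  have hloc := h1 d S A F F' f (max r1 r2) N
    (fun x hx => bx_mono (le_max_left _ _) (hr1 hx)) (fun x hx => bx_mono (le_max_right _ _) (hr2 hx))
  have hmeas : MeasurableSet {a : Z d → Fin (N + 1) → A | Bd (blk f N) a} := by
    refine meas_of_loc (bx d (max r1 r2 * (N + 1))) _ fun a a' haa ha => ?_
    obtain ⟨s, s', hss⟩ := ha
    refine ⟨s, s', ?_⟩
    rw [← hloc a a' s s haa fun _ _ => rfl, ← hloc a a' s' s' haa fun _ _ => rfl]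
    exact hss
  obtain ⟨i0, hi0⟩ : ∃ i0 : ℤ, i0 = -((N + 1 : ℕ) : ℤ) := ⟨_, rfl⟩
  have hinj : Function.Injective (fun p : Z d × Fin (N + 1) => ((p.1, i0 + ((p.2 : ℕ) : ℤ)) : Z d × ℤ)) := by
    rintro ⟨v, k⟩ ⟨v', k'⟩ h
    have h3 : v = v' := congrArg Prod.fst h
    have h4 : i0 + ((k : ℕ) : ℤ) = i0 + ((k' : ℕ) : ℤ) := congrArg Prod.snd h
    have h5 : k = k' := Fin.ext (by omega)
    rw [h3, h5]
  have hT := h2 (Z d × ℤ) (Z d) (N + 1) A α _ hinj
  rw [← hT.measureReal_preimage hmeas.nullMeasurableSet]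
  refine measureReal_mono ?_ (measure_ne_top _ _)
  rintro W ⟨s, s', hss⟩
  have hb : ∀ s : Z d → S, blk f N (fun v κ => W (v, i0 + ((κ : ℕ) : ℤ))) s =
      evo f W s i0 (N + 1) 0 := fun s => steps_eq f W s N i0 (N + 1) le_rfl 0
  intro i hi
  obtain ⟨m, hm⟩ : ∃ m : ℕ, N + 1 = m + i := ⟨N + 1 - i, by omega⟩
  have hi1 : -(i : ℤ) = i0 + m := by
    rw [hi0, hm]
    push_cast
    ring
  refine ⟨evo f W s i0 m, evo f W s' i0 m, ?_⟩
  rw [hi1, ← evo_add, ← evo_add, ← hm, ← hb, ← hb]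
  exact hss

end Pool.Agent.H947.FV
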